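import Mathlib

/-!
# The ordinary differential equations behind the helical flow
-/

set_option autoImplicit false

namespace Pool.Agent.Lib.MP_d68153_an

open Set Filter Topology

/-- denominator of `dF/dψ` -/
def Dn (F a b : ℝ) : ℝ := F * a - 1 + b * F * (1 - F ^ 2)

/-- numerator of `dF/dψ` -/
def Nm (F a b : ℝ) : ℝ :=
  1 - a ^ 2 + 2 * b * (a - F) - (1 - F ^ 2) * (4 * a * b + b ^ 2 * (1 - 3 * F ^ 2))

/-- `dF/dψ` -/
noncomputable def Fp (F a b : ℝ) : ℝ := Nm F a b / Dn F a b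

/-- `dα/dψ` -/
noncomputable def ap (F a b : ℝ) : ℝ :=
  4 * a * b + b ^ 2 * (1 - 3 * F ^ 2) + b * F * Fp F a b

/-- the vector field -/
noncomputable def vf (y : ℝ × ℝ × ℝ) : ℝ × ℝ × ℝ :=
  (Fp y.1 y.2.1 y.2.2, ap y.1 y.2.1 y.2.2, 3 * y.2.2 ^ 2)

/-- the set where the vector field is regular -/
def Oset : Set (ℝ × ℝ × ℝ) := {y | Dn y.1 y.2.1 y.2.2 ≠ 0 ∧ 0 < y.2.2}

lemma contDiff_Dn : ContDiff ℝ ⊤ (fun y : ℝ × ℝ × ℝ => Dn y.1 y.2.1 y.2.2) := by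
  unfold Dn; fun_prop

lemma contDiff_Nm : ContDiff ℝ ⊤ (fun y : ℝ × ℝ × ℝ => Nm y.1 y.2.1 y.2.2) := by
  unfold Nm; fun_prop

lemma isOpen_Oset : IsOpen Oset := by
  have h1 : Continuous (fun y : ℝ × ℝ × ℝ => Dn y.1 y.2.1 y.2.2) := contDiff_Dn.continuous
  have h2 : Continuous (fun y : ℝ × ℝ × ℝ => y.2.2) := by fun_prop
  exact (isOpen_ne_fun h1 continuous_const).inter (isOpen_lt continuous_const h2)

lemma contDiffOn_Fp : ContDiffOn ℝ ⊤ (fun y : ℝ × ℝ × ℝ => Fp y.1 y.2.1 y.2.2) Oset := by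
  unfold Fp
  exact contDiff_Nm.contDiffOn.div contDiff_Dn.contDiffOn (fun y hy => hy.1)

lemma contDiffOn_vf : ContDiffOn ℝ ⊤ vf Oset := by
  unfold vf
  refine contDiffOn_Fp.prodMk (ContDiffOn.prodMk ?_ (by fun_prop))
  unfold ap
  have h := contDiffOn_Fp
  fun_prop

/-- the solution of the system of ordinary differential equations -/
theorem ode : ∃ ε > (0 : ℝ), ∃ F α b : ℝ → ℝ, F 0 = 0 ∧ α 0 = 0 ∧ b 0 = 1 / 2 ∧
    ContDiffOn ℝ (⊤ : ℕ∞) F (Ioo (-ε) ε) ∧ ContDiffOn ℝ (⊤ : ℕ∞) α (Ioo (-ε) ε) ∧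
    ContDiffOn ℝ (⊤ : ℕ∞) b (Ioo (-ε) ε) ∧
    ∀ t ∈ Ioo (-ε) ε, Dn (F t) (α t) (b t) ≠ 0 ∧ 0 < b t ∧
      HasDerivAt F (Fp (F t) (α t) (b t)) t ∧ HasDerivAt α (ap (F t) (α t) (b t)) t ∧
      HasDerivAt b (3 * b t ^ 2) t := by
  have h0 : ((0, 0, 1 / 2) : ℝ × ℝ × ℝ) ∈ Oset := by
    constructor
    · simp [Dn]
    · norm_num
  have hv : ContDiffAt ℝ 1 vf (0, 0, 1 / 2) :=
    ((contDiffOn_vf _ h0).contDiffAt (isOpen_Oset.mem_nhds h0)).of_le (by simp)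
  obtain ⟨y, hy0, ε, hε, hy⟩ :=
    hv.exists_forall_mem_closedBall_exists_eq_forall_mem_Ioo_hasDerivAt₀ 0
  simp only [zero_sub, zero_add] at hy
  -- shrink the interval
  have hcont : ContinuousAt y 0 := (hy 0 ⟨by linarith, hε⟩).continuousAt
  have hO : ∀ᶠ t in 𝓝 (0 : ℝ), y t ∈ Oset := by
    apply hcont.eventually_mem
    rw [hy0]
    exact isOpen_Oset.mem_nhds h0
  obtain ⟨δ, hδ, hδO⟩ := Metric.eventually_nhds_iff.mp hO
  set ε' := min ε δ with hε'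
  have hε'0 : 0 < ε' := lt_min hε hδ
  have hmem : ∀ t ∈ Ioo (-ε') ε', y t ∈ Oset := by
    intro t ht
    apply hδO
    rw [Real.dist_eq, sub_zero, abs_lt]
    have := min_le_right ε δ
    exact ⟨by linarith [ht.1], by linarith [ht.2]⟩
  have hder : ∀ t ∈ Ioo (-ε') ε', HasDerivAt y (vf (y t)) t := by
    intro t ht
    apply hy
    have := min_le_left ε δ
    exact ⟨by linarith [ht.1], by linarith [ht.2]⟩
  have hsm : ContDiffOn ℝ (⊤ : ℕ∞) y (Ioo (-ε') ε') := by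
    rw [contDiffOn_infty]
    intro n
    induction n with
    | zero =>
      simp only [Nat.cast_zero, contDiffOn_zero]
      exact fun t ht => (hder t ht).continuousAt.continuousWithinAt
    | succ n ih =>
      have hs : IsOpen (Ioo (-ε') ε') := isOpen_Ioo
      push_cast
      rw [contDiffOn_succ_iff_deriv_of_isOpen hs]
      refine ⟨fun t ht => (hder t ht).differentiableAt.differentiableWithinAt, by simp, ?_⟩
      have h1 : ContDiffOn ℝ n (vf ∘ y) (Ioo (-ε') ε') :=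
        (contDiffOn_vf.of_le le_top).comp ih hmem
      exact h1.congr fun t ht => (hder t ht).deriv
  refine ⟨ε', hε'0, fun t => (y t).1, fun t => (y t).2.1, fun t => (y t).2.2, ?_, ?_, ?_,
    hsm.fst, hsm.snd.fst, hsm.snd.snd, ?_⟩
  · simp [hy0]
  · simp [hy0]
  · simp [hy0]
  · intro t ht
    refine ⟨(hmem t ht).1, (hmem t ht).2, ?_, ?_, ?_⟩
    · exact (hder t ht).fst
    · exact (hder t ht).snd.fst
    · exact (hder t ht).snd.snd

end Pool.Agent.Lib.MP_d68153_an
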