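import Mathlib
import Pool.Agent.Lib.MP_d68153_an.Ode

/-!
# The algebraic identities
-/

set_option autoImplicit false

namespace Pool.Agent.Lib.MP_d68153_an

/-- the third velocity component as a function of `R = x² + y²` and of `α, b` -/
def wv (R a b : ℝ) : ℝ := a - b * R

/-- square of `r u_r` -/
def Sv (R F a b : ℝ) : ℝ := R - F ^ 2 + 2 * F * wv R a b - (R + 1) * wv R a b ^ 2

/-- `2R ∂ψ/∂R` -/
def Pv (R F a b : ℝ) : ℝ := (R + 1) * wv R a b - F

/-- derivative of `w` with respect to `ψ` -/
noncomputable def wp (R F a b : ℝ) : ℝ := ap F a b - 3 * b ^ 2 * R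

/-- derivative of `S` with respect to `R` -/
def SR (R F a b : ℝ) : ℝ := 1 - wv R a b ^ 2 + 2 * b * Pv R F a b

/-- derivative of `S` with respect to `ψ` -/
noncomputable def Sp (R F a b : ℝ) : ℝ :=
  -2 * F * Fp F a b + 2 * (Fp F a b * wv R a b + F * wp R F a b)
    - 2 * (R + 1) * wv R a b * wp R F a b

/-- derivative of `P` with respect to `ψ` -/
noncomputable def Pp (R F a b : ℝ) : ℝ := (R + 1) * wp R F a b - Fp F a b

/-- the reduced compatibility identity -/
lemma compat0 (R F a b : ℝ) (h : Dn F a b ≠ 0) :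
    wp R F a b * (R + 1 - F ^ 2) + Fp F a b * (F * wv R a b - 1)
      = 1 - wv R a b ^ 2 + 2 * b * Pv R F a b := by
  have h1 : Fp F a b * Dn F a b = Nm F a b := by
    unfold Fp; field_simp
  unfold wp ap Pv wv
  unfold Dn Nm at h1
  linear_combination h1

/-- the compatibility identity -/
lemma compat (R F a b : ℝ) (h : Dn F a b ≠ 0) :
    2 * Sv R F a b * Pp R F a b = 2 * R * SR R F a b + Sp R F a b * Pv R F a b := by
  have h1 := compat0 R F a b h
  unfold Sv Pp SR Sp
  generalize Fp F a b = f at *
  generalize wp R F a b = w' at *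
  unfold Pv at *
  generalize wv R a b = w at *
  linear_combination 2 * R * h1

end Pool.Agent.Lib.MP_d68153_an
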