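import Mathlib

/-!
# Rotations about an axis
-/

set_option autoImplicit false

namespace Pool.Agent.Lib.MP_d68153_an

open Set Filter Topology

/-- Rodrigues' formula for the rotation about the unit vector `n`, with `c = cos t`, `s = sin t` -/
def rodr (n : EuclideanSpace ℝ (Fin 3)) (c s : ℝ) (v : EuclideanSpace ℝ (Fin 3)) :
    EuclideanSpace ℝ (Fin 3) :=
  !₂[c * v 0 + (1 - c) * (n 0 * v 0 + n 1 * v 1 + n 2 * v 2) * n 0 + s * (n 1 * v 2 - n 2 * v 1),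
    c * v 1 + (1 - c) * (n 0 * v 0 + n 1 * v 1 + n 2 * v 2) * n 1 + s * (n 2 * v 0 - n 0 * v 2),
    c * v 2 + (1 - c) * (n 0 * v 0 + n 1 * v 1 + n 2 * v 2) * n 2 + s * (n 0 * v 1 - n 1 * v 0)]

/-- Rodrigues' formula as a linear map -/
def rodrL (n : EuclideanSpace ℝ (Fin 3)) (c s : ℝ) :
    EuclideanSpace ℝ (Fin 3) →ₗ[ℝ] EuclideanSpace ℝ (Fin 3) where
  toFun := rodr n c s
  map_add' v w := by
    ext i
    fin_cases i <;> simp [rodr] <;> ring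
  map_smul' k v := by
    ext i
    fin_cases i <;> simp [rodr] <;> ring

lemma norm_rodr {n : EuclideanSpace ℝ (Fin 3)} (hn : n 0 ^ 2 + n 1 ^ 2 + n 2 ^ 2 = 1) {c s : ℝ}
    (h : c ^ 2 + s ^ 2 = 1) (v : EuclideanSpace ℝ (Fin 3)) : ‖rodrL n c s v‖ = ‖v‖ := by
  have h1 : ‖rodrL n c s v‖ ^ 2 = ‖v‖ ^ 2 := by
    rw [EuclideanSpace.norm_sq_eq, EuclideanSpace.norm_sq_eq]
    simp only [Fin.sum_univ_three, Real.norm_eq_abs, sq_abs]
    simp [rodrL, rodr]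
    linear_combination ((v 0 ^ 2 + v 1 ^ 2 + v 2 ^ 2) - (n 0 * v 0 + n 1 * v 1 + n 2 * v 2) ^ 2) * h
      + ((v 0 ^ 2 + v 1 ^ 2 + v 2 ^ 2) * s ^ 2
        + (n 0 * v 0 + n 1 * v 1 + n 2 * v 2) ^ 2 * (1 - c) ^ 2) * hn
  exact (pow_left_inj₀ (norm_nonneg _) (norm_nonneg _) two_ne_zero).mp h1

/-- the rotation as a linear isometry equivalence -/
noncomputable def rot (n : EuclideanSpace ℝ (Fin 3)) (hn : n 0 ^ 2 + n 1 ^ 2 + n 2 ^ 2 = 1)
    (t : ℝ) : EuclideanSpace ℝ (Fin 3) ≃ₗᵢ[ℝ] EuclideanSpace ℝ (Fin 3) :=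
  LinearIsometry.toLinearIsometryEquiv
    ⟨rodrL n (Real.cos t) (Real.sin t), norm_rodr hn (by rw [Real.cos_sq_add_sin_sq])⟩ rfl

lemma rot_apply (n : EuclideanSpace ℝ (Fin 3)) (hn : n 0 ^ 2 + n 1 ^ 2 + n 2 ^ 2 = 1)
    (t : ℝ) (v : EuclideanSpace ℝ (Fin 3)) : rot n hn t v = rodr n (Real.cos t) (Real.sin t) v :=
  rfl

lemma rot_axis (n : EuclideanSpace ℝ (Fin 3)) (hn : n 0 ^ 2 + n 1 ^ 2 + n 2 ^ 2 = 1)
    (t : ℝ) : rot n hn t n = n := by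
  rw [rot_apply]
  ext i
  fin_cases i
  · simp [rodr]
    linear_combination (1 - Real.cos t) * n 0 * hn
  · simp [rodr]
    linear_combination (1 - Real.cos t) * n 1 * hn
  · simp [rodr]
    linear_combination (1 - Real.cos t) * n 2 * hn

lemma rot_det (n : EuclideanSpace ℝ (Fin 3)) (hn : n 0 ^ 2 + n 1 ^ 2 + n 2 ^ 2 = 1)
    (t : ℝ) : LinearMap.det ((rot n hn t).toLinearEquiv :
      EuclideanSpace ℝ (Fin 3) →ₗ[ℝ] EuclideanSpace ℝ (Fin 3)) = 1 := by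
  have h : (((rot n hn t).toLinearEquiv : EuclideanSpace ℝ (Fin 3) ≃ₗ[ℝ] EuclideanSpace ℝ (Fin 3)) :
      EuclideanSpace ℝ (Fin 3) →ₗ[ℝ] EuclideanSpace ℝ (Fin 3))
      = rodrL n (Real.cos t) (Real.sin t) := rfl
  have h2 := Real.cos_sq_add_sin_sq t
  rw [h, ← LinearMap.det_toMatrix (EuclideanSpace.basisFun (Fin 3) ℝ).toBasis, Matrix.det_fin_three]
  simp [LinearMap.toMatrix_apply, rodrL, rodr]
  generalize Real.cos t = c at *
  generalize Real.sin t = s at *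
  linear_combination ((1 - c) * (c ^ 2 + s ^ 2 * (n 0 ^ 2 + n 1 ^ 2 + n 2 ^ 2)) + s ^ 2) * hn + h2

/-- the infinitesimal rotation -/
def cr (n v : EuclideanSpace ℝ (Fin 3)) : EuclideanSpace ℝ (Fin 3) :=
  !₂[n 1 * v 2 - n 2 * v 1, n 2 * v 0 - n 0 * v 2, n 0 * v 1 - n 1 * v 0]

lemma hasDerivAt_coord {f : ℝ → EuclideanSpace ℝ (Fin 3)} {f' : EuclideanSpace ℝ (Fin 3)} {t : ℝ}
    (h : ∀ i, HasDerivAt (fun t => f t i) (f' i) t) : HasDerivAt f f' t := by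
  rw [hasDerivAt_iff_hasFDerivAt, ← hasFDerivWithinAt_univ, hasFDerivWithinAt_euclidean]
  intro i
  rw [hasFDerivWithinAt_univ]
  refine (h i).hasFDerivAt.congr_fderiv ?_
  ext
  simp

lemma hasDerivAt_rot (n : EuclideanSpace ℝ (Fin 3)) (hn : n 0 ^ 2 + n 1 ^ 2 + n 2 ^ 2 = 1)
    (v : EuclideanSpace ℝ (Fin 3)) : HasDerivAt (fun t => rot n hn t v) (cr n v) 0 := by
  have hc : HasDerivAt Real.cos 0 0 := by simpa using Real.hasDerivAt_cos 0
  have hs : HasDerivAt Real.sin 1 0 := by simpa using Real.hasDerivAt_sin 0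
  apply hasDerivAt_coord
  intro i
  simp only [rot_apply]
  fin_cases i
  · have h1 := ((hc.mul_const (v 0)).add (((hc.const_sub 1).mul_const
      (n 0 * v 0 + n 1 * v 1 + n 2 * v 2)).mul_const (n 0))).add
      (hs.mul_const (n 1 * v 2 - n 2 * v 1))
    refine h1.congr_deriv ?_
    simp [cr]
  · have h1 := ((hc.mul_const (v 1)).add (((hc.const_sub 1).mul_const
      (n 0 * v 0 + n 1 * v 1 + n 2 * v 2)).mul_const (n 1))).add
      (hs.mul_const (n 2 * v 0 - n 0 * v 2))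
    refine h1.congr_deriv ?_
    simp [cr]
  · have h1 := ((hc.mul_const (v 2)).add (((hc.const_sub 1).mul_const
      (n 0 * v 0 + n 1 * v 1 + n 2 * v 2)).mul_const (n 2))).add
      (hs.mul_const (n 0 * v 1 - n 1 * v 0))
    refine h1.congr_deriv ?_
    simp [cr]

lemma rot_zero (n : EuclideanSpace ℝ (Fin 3)) (hn : n 0 ^ 2 + n 1 ^ 2 + n 2 ^ 2 = 1)
    (v : EuclideanSpace ℝ (Fin 3)) : rot n hn 0 v = v := by
  rw [rot_apply]
  ext i
  fin_cases i <;> simp [rodr]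

end Pool.Agent.Lib.MP_d68153_an
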