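import Mathlib
import Pool.Agent.Lib.MP_d68153_an.Alg

/-!
# The closed one-form in the `(R, ψ)` plane and its primitive
-/

set_option autoImplicit false

namespace Pool.Agent.Lib.MP_d68153_an

open Set Filter Topology

/-- the linear form `(v₁, v₂) ↦ a v₁ + b v₂` -/
noncomputable def lf (a b : ℝ) : ℝ × ℝ →L[ℝ] ℝ :=
  a • ContinuousLinearMap.fst ℝ ℝ ℝ + b • ContinuousLinearMap.snd ℝ ℝ ℝ

@[simp] lemma lf_apply (a b : ℝ) (v : ℝ × ℝ) : lf a b v = a * v.1 + b * v.2 := by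
  simp [lf]

lemma hasFDerivAt_div' {E : Type*} [NormedAddCommGroup E] [NormedSpace ℝ E] {f g : E → ℝ}
    {f' g' : E →L[ℝ] ℝ} {x : E} (hf : HasFDerivAt f f' x) (hg : HasFDerivAt g g' x)
    (hx : g x ≠ 0) :
    HasFDerivAt (fun y => f y / g y) ((1 / g x) • f' - (f x / g x ^ 2) • g') x := by
  have h := hf.mul ((hasDerivAt_inv hx).comp_hasFDerivAt x hg)
  refine (h.congr_fderiv ?_).congr_of_eventuallyEq ?_
  · ext v
    simp
    field_simp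
    ring
  · exact Eventually.of_forall fun y => by simp [div_eq_mul_inv]

/-- the data of a solution of the system on an interval -/
structure Sol (ε : ℝ) (F α b : ℝ → ℝ) : Prop where
  smF : ContDiffOn ℝ (⊤ : ℕ∞) F (Ioo (-ε) ε)
  smα : ContDiffOn ℝ (⊤ : ℕ∞) α (Ioo (-ε) ε)
  smb : ContDiffOn ℝ (⊤ : ℕ∞) b (Ioo (-ε) ε)
  hD : ∀ t ∈ Ioo (-ε) ε, Dn (F t) (α t) (b t) ≠ 0
  hb : ∀ t ∈ Ioo (-ε) ε, 0 < b t
  dF : ∀ t ∈ Ioo (-ε) ε, HasDerivAt F (Fp (F t) (α t) (b t)) t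
  dα : ∀ t ∈ Ioo (-ε) ε, HasDerivAt α (ap (F t) (α t) (b t)) t
  db : ∀ t ∈ Ioo (-ε) ε, HasDerivAt b (3 * b t ^ 2) t

variable (F α b : ℝ → ℝ)

/-- `S` as a function of `(R, ψ)` -/
def Sf (x : ℝ × ℝ) : ℝ := Sv x.1 (F x.2) (α x.2) (b x.2)

/-- `P` as a function of `(R, ψ)` -/
def Pf (x : ℝ × ℝ) : ℝ := Pv x.1 (F x.2) (α x.2) (b x.2)

/-- `Q` as a function of `(R, ψ)` -/
noncomputable def Qf (x : ℝ × ℝ) : ℝ := √(Sf F α b x)

/-- `Π` as a function of `(R, ψ)` -/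
noncomputable def Pif (x : ℝ × ℝ) : ℝ := Pf F α b x / (2 * x.1)

variable {F α b} {ε : ℝ}

lemma hasFDerivAt_w (h : Sol ε F α b) {x : ℝ × ℝ} (hx : x.2 ∈ Ioo (-ε) ε) :
    HasFDerivAt (fun x : ℝ × ℝ => wv x.1 (α x.2) (b x.2))
      (lf (-b x.2) (wp x.1 (F x.2) (α x.2) (b x.2))) x := by
  have h1 : HasFDerivAt (fun x : ℝ × ℝ => x.1) (ContinuousLinearMap.fst ℝ ℝ ℝ) x := hasFDerivAt_fst
  have h2 : HasFDerivAt (fun x : ℝ × ℝ => x.2) (ContinuousLinearMap.snd ℝ ℝ ℝ) x := hasFDerivAt_snd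
  have hα := (h.dα _ hx).comp_hasFDerivAt x h2
  have hb := (h.db _ hx).comp_hasFDerivAt x h2
  have h3 := hα.sub (hb.mul h1)
  refine h3.congr_fderiv ?_
  ext v <;> simp [wp] <;> ring

lemma hasFDerivAt_F (h : Sol ε F α b) {x : ℝ × ℝ} (hx : x.2 ∈ Ioo (-ε) ε) :
    HasFDerivAt (fun x : ℝ × ℝ => F x.2) (lf 0 (Fp (F x.2) (α x.2) (b x.2))) x := by
  have h2 : HasFDerivAt (fun x : ℝ × ℝ => x.2) (ContinuousLinearMap.snd ℝ ℝ ℝ) x := hasFDerivAt_snd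
  refine ((h.dF _ hx).comp_hasFDerivAt x h2).congr_fderiv ?_
  ext v <;> simp

lemma hasFDerivAt_S (h : Sol ε F α b) {x : ℝ × ℝ} (hx : x.2 ∈ Ioo (-ε) ε) :
    HasFDerivAt (Sf F α b)
      (lf (SR x.1 (F x.2) (α x.2) (b x.2)) (Sp x.1 (F x.2) (α x.2) (b x.2))) x := by
  have h1 : HasFDerivAt (fun x : ℝ × ℝ => x.1) (ContinuousLinearMap.fst ℝ ℝ ℝ) x := hasFDerivAt_fst
  have hw := hasFDerivAt_w h hx
  have hF := hasFDerivAt_F h hx
  have h3 := ((h1.sub (hF.pow 2)).add ((hF.const_mul 2).mul hw)).sub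
    ((h1.add_const 1).mul (hw.pow 2))
  refine h3.congr_fderiv ?_
  ext v <;> simp [SR, Sp, Pv, wv] <;> ring

lemma hasFDerivAt_P (h : Sol ε F α b) {x : ℝ × ℝ} (hx : x.2 ∈ Ioo (-ε) ε) :
    HasFDerivAt (Pf F α b)
      (lf (wv x.1 (α x.2) (b x.2) - (x.1 + 1) * b x.2) (Pp x.1 (F x.2) (α x.2) (b x.2))) x := by
  have h1 : HasFDerivAt (fun x : ℝ × ℝ => x.1) (ContinuousLinearMap.fst ℝ ℝ ℝ) x := hasFDerivAt_fst
  have hw := hasFDerivAt_w h hx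
  have hF := hasFDerivAt_F h hx
  have h3 := ((h1.add_const 1).mul hw).sub hF
  refine h3.congr_fderiv ?_
  ext v <;> simp [Pp, wv] <;> ring

/-- the one-form -/
noncomputable def om (F α b : ℝ → ℝ) (x : ℝ × ℝ) : ℝ × ℝ →L[ℝ] ℝ :=
  lf (-Pif F α b x / Qf F α b x) (1 / Qf F α b x)

lemma hasFDerivAt_Q (h : Sol ε F α b) {x : ℝ × ℝ} (hx : x.2 ∈ Ioo (-ε) ε) (hS : 0 < Sf F α b x) :
    HasFDerivAt (Qf F α b)
      (lf (SR x.1 (F x.2) (α x.2) (b x.2) / (2 * Qf F α b x))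
        (Sp x.1 (F x.2) (α x.2) (b x.2) / (2 * Qf F α b x))) x := by
  refine ((hasFDerivAt_S h hx).sqrt hS.ne').congr_fderiv ?_
  ext v <;> simp [Qf] <;> ring

lemma om_closed (h : Sol ε F α b) {x : ℝ × ℝ} (hx : x.2 ∈ Ioo (-ε) ε) (hR : 0 < x.1)
    (hS : 0 < Sf F α b x) :
    DifferentiableAt ℝ (om F α b) x ∧
      ∀ v w, fderiv ℝ (om F α b) x v w = fderiv ℝ (om F α b) x w v := by
  have h1 : HasFDerivAt (fun x : ℝ × ℝ => x.1) (ContinuousLinearMap.fst ℝ ℝ ℝ) x := hasFDerivAt_fst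
  have hQ := hasFDerivAt_Q h hx hS
  have hP := hasFDerivAt_P h hx
  have hQ0 : 0 < Qf F α b x := Real.sqrt_pos.mpr hS
  have hQS : Qf F α b x ^ 2 = Sf F α b x := Real.sq_sqrt hS.le
  have hB : HasFDerivAt (fun x => 1 / Qf F α b x)
      (lf (-(SR x.1 (F x.2) (α x.2) (b x.2) / (2 * Qf F α b x)) / Qf F α b x ^ 2)
        (-(Sp x.1 (F x.2) (α x.2) (b x.2) / (2 * Qf F α b x)) / Qf F α b x ^ 2)) x := by
    have h2 := hasFDerivAt_div' (hasFDerivAt_const (1 : ℝ) x) hQ hQ0.ne'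
    refine h2.congr_fderiv ?_
    ext v <;> simp <;> ring
  have hPi : HasFDerivAt (Pif F α b)
      (lf (((wv x.1 (α x.2) (b x.2) - (x.1 + 1) * b x.2) * (2 * x.1)
          - 2 * Pf F α b x) / (2 * x.1) ^ 2)
        (Pp x.1 (F x.2) (α x.2) (b x.2) / (2 * x.1))) x := by
    have h2 := hasFDerivAt_div' hP (h1.const_mul 2) (by positivity)
    refine h2.congr_fderiv ?_
    ext v
    · simp
      field_simp
    · simp
      field_simp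
  have hA := hasFDerivAt_div' hPi.neg hQ hQ0.ne'
  have hom : HasFDerivAt (om F α b)
      (((ContinuousLinearMap.id ℝ ℝ).smulRight (ContinuousLinearMap.fst ℝ ℝ ℝ)).comp
        _ + ((ContinuousLinearMap.id ℝ ℝ).smulRight (ContinuousLinearMap.snd ℝ ℝ ℝ)).comp _) x :=
    (((ContinuousLinearMap.id ℝ ℝ).smulRight
      (ContinuousLinearMap.fst ℝ ℝ ℝ)).hasFDerivAt.comp x hA).add
    (((ContinuousLinearMap.id ℝ ℝ).smulRight
      (ContinuousLinearMap.snd ℝ ℝ ℝ)).hasFDerivAt.comp x hB)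
  refine ⟨hom.differentiableAt, fun v w => ?_⟩
  rw [hom.fderiv]
  have hc := compat x.1 (F x.2) (α x.2) (b x.2) (h.hD _ hx)
  have e1 : Sv x.1 (F x.2) (α x.2) (b x.2) = Qf F α b x ^ 2 := hQS.symm
  have e2 : Pv x.1 (F x.2) (α x.2) (b x.2) = Pf F α b x := rfl
  rw [e1, e2] at hc
  simp [Pif]
  field_simp
  linear_combination x.1 * (v.1 * w.2 - v.2 * w.1) * hc

end Pool.Agent.Lib.MP_d68153_an
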