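import Mathlib
import Pool.Agent.Lib.MP_d68153_an.Prim

/-!
# The stream function in the `(R, ζ)` plane
-/

set_option autoImplicit false

namespace Pool.Agent.Lib.MP_d68153_an

open Set Filter Topology

variable {F α b : ℝ → ℝ} {ε : ℝ}

/-- the derivative of `(R, ψ) ↦ (R, Z(R, ψ))` as an isomorphism -/
noncomputable def eqv (p q : ℝ) (hq : q ≠ 0) : (ℝ × ℝ) ≃L[ℝ] (ℝ × ℝ) :=
  ContinuousLinearEquiv.equivOfInverse
    ((ContinuousLinearMap.fst ℝ ℝ ℝ).prod (lf (-p / q) (1 / q)))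
    ((ContinuousLinearMap.fst ℝ ℝ ℝ).prod (lf p q))
    (by
      intro v
      ext
      · simp
      · simp
        field_simp
        ring)
    (by
      intro v
      ext
      · simp
      · simp
        field_simp
        ring)

lemma contDiffOn_comp_snd {f : ℝ → ℝ} (hf : ContDiffOn ℝ (⊤ : ℕ∞) f (Ioo (-ε) ε))
    {Ω : Set (ℝ × ℝ)} (hΩ : ∀ x ∈ Ω, x.2 ∈ Ioo (-ε) ε) :
    ContDiffOn ℝ (⊤ : ℕ∞) (fun x : ℝ × ℝ => f x.2) Ω :=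
  hf.comp contDiff_snd.contDiffOn hΩ

theorem local_psi (h : Sol ε F α b) (hε : 0 < ε) (hF0 : F 0 = 0) (hα0 : α 0 = 0)
    (hb0 : b 0 = 1 / 2) :
    ∃ (W : Set (ℝ × ℝ)) (Ψ : ℝ × ℝ → ℝ), IsOpen W ∧ ((1 : ℝ), (0 : ℝ)) ∈ W ∧
      ContDiffOn ℝ (⊤ : ℕ∞) Ψ W ∧ ∀ y ∈ W, 0 < y.1 ∧ Ψ y ∈ Ioo (-ε) ε ∧
        0 < Sf F α b (y.1, Ψ y) ∧
        HasFDerivAt Ψ (lf (Pif F α b (y.1, Ψ y)) (Qf F α b (y.1, Ψ y))) y := by
  -- a neighbourhood of the base point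
  have hx0 : ((1 : ℝ), (0 : ℝ)).2 ∈ Ioo (-ε) ε := ⟨by simpa using hε, by simpa using hε⟩
  have hS0 : 0 < Sf F α b (1, 0) := by
    simp only [Sf, hF0, hα0, hb0, Sv, wv]
    norm_num
  have hnb : ∀ᶠ x in 𝓝 ((1 : ℝ), (0 : ℝ)), 0 < x.1 ∧ x.2 ∈ Ioo (-ε) ε ∧ 0 < Sf F α b x := by
    have h1 : ∀ᶠ x : ℝ × ℝ in 𝓝 ((1 : ℝ), (0 : ℝ)), 0 < x.1 :=
      continuous_fst.continuousAt.eventually (lt_mem_nhds (by norm_num))
    have h2 : ∀ᶠ x : ℝ × ℝ in 𝓝 ((1 : ℝ), (0 : ℝ)), x.2 ∈ Ioo (-ε) ε :=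
      continuous_snd.continuousAt.eventually_mem (isOpen_Ioo.mem_nhds hx0)
    have h3 : ∀ᶠ x in 𝓝 ((1 : ℝ), (0 : ℝ)), 0 < Sf F α b x :=
      (hasFDerivAt_S h hx0).continuousAt.eventually (lt_mem_nhds hS0)
    exact h1.and (h2.and h3)
  obtain ⟨δ, hδ, hΩ'⟩ := Metric.eventually_nhds_iff_ball.mp hnb
  set Ω := Metric.ball ((1 : ℝ), (0 : ℝ)) δ with hΩd
  have hΩo : IsOpen Ω := Metric.isOpen_ball
  have hΩ1 : ∀ x ∈ Ω, 0 < x.1 := fun x hx => (hΩ' x hx).1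
  have hΩ2 : ∀ x ∈ Ω, x.2 ∈ Ioo (-ε) ε := fun x hx => (hΩ' x hx).2.1
  have hΩ3 : ∀ x ∈ Ω, 0 < Sf F α b x := fun x hx => (hΩ' x hx).2.2
  have hbase : ((1 : ℝ), (0 : ℝ)) ∈ Ω := Metric.mem_ball_self hδ
  -- the primitive
  obtain ⟨Z0, hZ0⟩ := (convex_ball ((1 : ℝ), (0 : ℝ)) δ).exists_forall_hasFDerivAt_of_fderiv_symmetric
    hΩo (ω := om F α b)
    (fun x hx => (om_closed h (hΩ2 x hx) (hΩ1 x hx) (hΩ3 x hx)).1.differentiableWithinAt)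
    (fun x hx => (om_closed h (hΩ2 x hx) (hΩ1 x hx) (hΩ3 x hx)).2)
  set Z : ℝ × ℝ → ℝ := fun x => Z0 x - Z0 (1, 0) with hZd
  have hZ : ∀ x ∈ Ω, HasFDerivAt Z (om F α b x) x := fun x hx => (hZ0 x hx).sub_const _
  have hZb : Z (1, 0) = 0 := by simp [hZd]
  -- smoothness
  have sF := contDiffOn_comp_snd h.smF hΩ2
  have sα := contDiffOn_comp_snd h.smα hΩ2
  have sb := contDiffOn_comp_snd h.smb hΩ2
  have s1 : ContDiffOn ℝ (⊤ : ℕ∞) (fun x : ℝ × ℝ => x.1) Ω := contDiff_fst.contDiffOn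
  have sw : ContDiffOn ℝ (⊤ : ℕ∞) (fun x : ℝ × ℝ => wv x.1 (α x.2) (b x.2)) Ω :=
    sα.sub (sb.mul s1)
  have sS : ContDiffOn ℝ (⊤ : ℕ∞) (Sf F α b) Ω :=
    ((s1.sub (sF.pow 2)).add ((contDiffOn_const.mul sF).mul sw)).sub
      ((s1.add contDiffOn_const).mul (sw.pow 2))
  have sP : ContDiffOn ℝ (⊤ : ℕ∞) (Pf F α b) Ω :=
    ((s1.add contDiffOn_const).mul sw).sub sF
  have sQ : ContDiffOn ℝ (⊤ : ℕ∞) (Qf F α b) Ω := sS.sqrt fun x hx => (hΩ3 x hx).ne'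
  have hQ0 : ∀ x ∈ Ω, Qf F α b x ≠ 0 := fun x hx => (Real.sqrt_pos.mpr (hΩ3 x hx)).ne'
  have sPi : ContDiffOn ℝ (⊤ : ℕ∞) (Pif F α b) Ω :=
    sP.div (contDiffOn_const.mul s1) fun x hx => by
      have := hΩ1 x hx
      positivity
  have som : ContDiffOn ℝ (⊤ : ℕ∞) (om F α b) Ω := by
    have s2 : ContDiffOn ℝ (⊤ : ℕ∞) (fun x => -Pif F α b x / Qf F α b x) Ω := sPi.neg.div sQ hQ0
    have s3 : ContDiffOn ℝ (⊤ : ℕ∞) (fun x => 1 / Qf F α b x) Ω := contDiffOn_const.div sQ hQ0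
    unfold om lf
    exact (s2.smul contDiffOn_const).add (s3.smul contDiffOn_const)
  have sZ : ContDiffOn ℝ (⊤ : ℕ∞) Z Ω := by
    rw [contDiffOn_infty_iff_fderiv_of_isOpen hΩo]
    exact ⟨fun x hx => (hZ x hx).differentiableAt.differentiableWithinAt,
      som.congr fun x hx => (hZ x hx).fderiv⟩
  -- the map to invert
  set Φ : ℝ × ℝ → ℝ × ℝ := fun x => (x.1, Z x) with hΦ
  have sΦ : ContDiffOn ℝ (⊤ : ℕ∞) Φ Ω := s1.prodMk sZ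
  have dΦ : ∀ x (hx : x ∈ Ω), HasFDerivAt Φ
      (eqv (Pif F α b x) (Qf F α b x) (hQ0 x hx) : ℝ × ℝ →L[ℝ] ℝ × ℝ) x := by
    intro x hx
    exact hasFDerivAt_fst.prodMk (hZ x hx)
  have cΦ : ∀ x ∈ Ω, ContDiffAt ℝ (⊤ : ℕ∞) Φ x := fun x hx => (sΦ x hx).contDiffAt (hΩo.mem_nhds hx)
  set e := (cΦ _ hbase).toOpenPartialHomeomorph Φ (dΦ _ hbase) (by simp) with he
  have hecoe : (e : ℝ × ℝ → ℝ × ℝ) = Φ := rfl
  have hes : ((1 : ℝ), (0 : ℝ)) ∈ e.source :=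
    ContDiffAt.mem_toOpenPartialHomeomorph_source (cΦ _ hbase) (dΦ _ hbase) (by simp)
  have hebase : e (1, 0) = (1, 0) := by
    rw [hecoe]
    simp [hΦ, hZb]
  set W : Set (ℝ × ℝ) := e.target ∩ e.symm ⁻¹' Ω with hW
  have hWo : IsOpen W := e.isOpen_inter_preimage_symm hΩo
  refine ⟨W, fun y => (e.symm y).2, hWo, ?_, ?_, ?_⟩
  · refine ⟨?_, ?_⟩
    · have := e.map_source hes
      rwa [hebase] at this
    · have h1 := e.left_inv hes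
      rw [hebase] at h1
      show e.symm (1, 0) ∈ Ω
      rw [h1]
      exact hbase
  · intro y hy
    have h1 : HasFDerivAt e _ (e.symm y) := dΦ (e.symm y) hy.2
    have h2 : ContDiffAt ℝ (⊤ : ℕ∞) e (e.symm y) := cΦ _ hy.2
    exact (e.contDiffAt_symm hy.1 h1 h2).snd.contDiffWithinAt
  · intro y hy
    have hxΩ : e.symm y ∈ Ω := hy.2
    have h1 : HasFDerivAt e _ (e.symm y) := dΦ (e.symm y) hxΩ
    have h3 : e (e.symm y) = y := e.right_inv hy.1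
    have h4 : (e.symm y).1 = y.1 := by
      conv_rhs => rw [← h3]
      rfl
    have h5 : e.symm y = (y.1, (e.symm y).2) := Prod.ext h4 rfl
    refine ⟨?_, hΩ2 _ hxΩ, ?_, ?_⟩
    · rw [← h4]; exact hΩ1 _ hxΩ
    · simp only
      rw [← h5]; exact hΩ3 _ hxΩ
    · simp only
      rw [← h5]
      have h6 := (e.hasFDerivAt_symm hy.1 h1).snd
      exact h6

end Pool.Agent.Lib.MP_d68153_an
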