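import Mathlib
import Pool.Agent.Lib.MP_d68153_an.Local

/-!
# The flow in three-space
-/

set_option autoImplicit false

namespace Pool.Agent.Lib.MP_d68153_an

open Set Filter Topology

/-- the linear form `v ↦ a v₀ + b v₁ + c v₂` -/
noncomputable def l3 (a b c : ℝ) : EuclideanSpace ℝ (Fin 3) →L[ℝ] ℝ :=
  a • EuclideanSpace.proj (0 : Fin 3) + b • EuclideanSpace.proj (1 : Fin 3)
    + c • EuclideanSpace.proj (2 : Fin 3)

@[simp] lemma l3_apply (a b c : ℝ) (v : EuclideanSpace ℝ (Fin 3)) :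
    l3 a b c v = a * v 0 + b * v 1 + c * v 2 := by
  simp [l3]

/-- `x² + y²` -/
def Rr (X : EuclideanSpace ℝ (Fin 3)) : ℝ := X 0 ^ 2 + X 1 ^ 2

/-- `θ - z` -/
noncomputable def ze (X : EuclideanSpace ℝ (Fin 3)) : ℝ := Real.arctan (X 1 / X 0) - X 2

lemma hasFDerivAt_x (X : EuclideanSpace ℝ (Fin 3)) :
    HasFDerivAt (fun X : EuclideanSpace ℝ (Fin 3) => X 0) (l3 1 0 0) X := by
  refine ((EuclideanSpace.proj (0 : Fin 3) :
    EuclideanSpace ℝ (Fin 3) →L[ℝ] ℝ).hasFDerivAt (x := X)).congr_fderiv ?_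
  simp [l3]

lemma hasFDerivAt_y (X : EuclideanSpace ℝ (Fin 3)) :
    HasFDerivAt (fun X : EuclideanSpace ℝ (Fin 3) => X 1) (l3 0 1 0) X := by
  refine ((EuclideanSpace.proj (1 : Fin 3) :
    EuclideanSpace ℝ (Fin 3) →L[ℝ] ℝ).hasFDerivAt (x := X)).congr_fderiv ?_
  simp [l3]

lemma hasFDerivAt_z (X : EuclideanSpace ℝ (Fin 3)) :
    HasFDerivAt (fun X : EuclideanSpace ℝ (Fin 3) => X 2) (l3 0 0 1) X := by
  refine ((EuclideanSpace.proj (2 : Fin 3) :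
    EuclideanSpace ℝ (Fin 3) →L[ℝ] ℝ).hasFDerivAt (x := X)).congr_fderiv ?_
  simp [l3]

lemma hasFDerivAt_Rr (X : EuclideanSpace ℝ (Fin 3)) :
    HasFDerivAt Rr (l3 (2 * X 0) (2 * X 1) 0) X := by
  have h := ((hasFDerivAt_x X).pow 2).add ((hasFDerivAt_y X).pow 2)
  refine h.congr_fderiv ?_
  ext v
  simp

lemma hasFDerivAt_ze {X : EuclideanSpace ℝ (Fin 3)} (hX : 0 < X 0) :
    HasFDerivAt ze (l3 (-X 1 / Rr X) (X 0 / Rr X) (-1)) X := by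
  have h1 := hasFDerivAt_div' (hasFDerivAt_y X) (hasFDerivAt_x X) hX.ne'
  have h := (h1.arctan).sub (hasFDerivAt_z X)
  refine h.congr_fderiv ?_
  ext v
  have hR : Rr X ≠ 0 := by unfold Rr; positivity
  have hR' : X 0 ^ 2 + X 1 ^ 2 ≠ 0 := by positivity
  simp
  unfold Rr
  field_simp
  ring

variable {F α b : ℝ → ℝ} {ε : ℝ} {Ψ : ℝ × ℝ → ℝ} {W : Set (ℝ × ℝ)}

variable (Ψ) in
/-- the stream function on three-space -/
noncomputable def ps (X : EuclideanSpace ℝ (Fin 3)) : ℝ := Ψ (Rr X, ze X)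

/-- what we know about `Ψ` -/
structure Loc (ε : ℝ) (F α b : ℝ → ℝ) (W : Set (ℝ × ℝ)) (Ψ : ℝ × ℝ → ℝ) : Prop where
  isOpen : IsOpen W
  base : ((1 : ℝ), (0 : ℝ)) ∈ W
  smooth : ContDiffOn ℝ (⊤ : ℕ∞) Ψ W
  mem : ∀ y ∈ W, Ψ y ∈ Ioo (-ε) ε
  pos : ∀ y ∈ W, 0 < Sf F α b (y.1, Ψ y)
  der : ∀ y ∈ W, HasFDerivAt Ψ (lf (Pif F α b (y.1, Ψ y)) (Qf F α b (y.1, Ψ y))) y

/-- the domain -/
def Dom (W : Set (ℝ × ℝ)) : Set (EuclideanSpace ℝ (Fin 3)) := {X | 0 < X 0 ∧ (Rr X, ze X) ∈ W}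

variable (F α b Ψ) in
/-- `Q` on three-space -/
noncomputable def qq (X : EuclideanSpace ℝ (Fin 3)) : ℝ := Qf F α b (Rr X, ps Ψ X)

variable (F α b Ψ) in
/-- the third velocity component on three-space -/
noncomputable def ww (X : EuclideanSpace ℝ (Fin 3)) : ℝ :=
  wv (Rr X) (α (ps Ψ X)) (b (ps Ψ X))

variable (F α b Ψ) in
/-- `T = r u_θ` on three-space -/
noncomputable def tt (X : EuclideanSpace ℝ (Fin 3)) : ℝ := F (ps Ψ X) - ww α b Ψ X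

variable (F α b Ψ) in
/-- `P` on three-space -/
noncomputable def pp (X : EuclideanSpace ℝ (Fin 3)) : ℝ := Pf F α b (Rr X, ps Ψ X)

variable (F α b Ψ) in
/-- the velocity -/
noncomputable def vel (X : EuclideanSpace ℝ (Fin 3)) : EuclideanSpace ℝ (Fin 3) :=
  !₂[(qq F α b Ψ X * X 0 - tt F α b Ψ X * X 1) / Rr X,
    (qq F α b Ψ X * X 1 + tt F α b Ψ X * X 0) / Rr X, ww α b Ψ X]

variable (b Ψ) in
/-- the pressure -/
noncomputable def prs (X : EuclideanSpace ℝ (Fin 3)) : ℝ := -(2 / 3) * Real.log (b (ps Ψ X))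

lemma Rr_pos {X : EuclideanSpace ℝ (Fin 3)} (hX : 0 < X 0) : 0 < Rr X := by
  unfold Rr; positivity

lemma isOpen_Dom (hL : Loc ε F α b W Ψ) : IsOpen (Dom W) := by
  rw [isOpen_iff_mem_nhds]
  rintro X ⟨hX, hW⟩
  have h1 : ∀ᶠ Y in 𝓝 X, 0 < Y 0 :=
    (hasFDerivAt_x X).continuousAt.eventually (lt_mem_nhds hX)
  have h2 : ∀ᶠ Y in 𝓝 X, (Rr Y, ze Y) ∈ W :=
    ((hasFDerivAt_Rr X).continuousAt.prodMk (hasFDerivAt_ze hX).continuousAt).eventually_mem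
      (hL.isOpen.mem_nhds hW)
  exact h1.and h2

lemma base_mem_Dom (hL : Loc ε F α b W Ψ) : EuclideanSpace.single (0 : Fin 3) (1 : ℝ) ∈ Dom W := by
  constructor
  · simp
  · have : (Rr (EuclideanSpace.single (0 : Fin 3) (1 : ℝ)),
        ze (EuclideanSpace.single (0 : Fin 3) (1 : ℝ))) = ((1 : ℝ), (0 : ℝ)) := by
      simp [Rr, ze]
    rw [this]
    exact hL.base

section point

variable (h : Sol ε F α b) (hL : Loc ε F α b W Ψ) {X : EuclideanSpace ℝ (Fin 3)} (hX : X ∈ Dom W)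

include hL hX

lemma ps_mem : ps Ψ X ∈ Ioo (-ε) ε := hL.mem _ hX.2

lemma S_pos : 0 < Sf F α b (Rr X, ps Ψ X) := hL.pos _ hX.2

lemma qq_pos : 0 < qq F α b Ψ X := Real.sqrt_pos.mpr (S_pos hL hX)

lemma qq_sq : qq F α b Ψ X ^ 2 = Sv (Rr X) (F (ps Ψ X)) (α (ps Ψ X)) (b (ps Ψ X)) :=
  Real.sq_sqrt (S_pos hL hX).le

lemma hasFDerivAt_ps : HasFDerivAt (ps Ψ)
    (l3 (pp F α b Ψ X * X 0 / Rr X - qq F α b Ψ X * X 1 / Rr X)
      (pp F α b Ψ X * X 1 / Rr X + qq F α b Ψ X * X 0 / Rr X) (-qq F α b Ψ X)) X := by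
  have h1 := (hL.der _ hX.2).comp X ((hasFDerivAt_Rr X).prodMk (hasFDerivAt_ze hX.1))
  refine h1.congr_fderiv ?_
  have hR := (Rr_pos hX.1).ne'
  ext v
  simp [Pif, pp, qq, ps]
  field_simp
  ring

variable (F α b Ψ X) in
omit hL hX in
/-- the derivative of `ψ` -/
noncomputable def dps : EuclideanSpace ℝ (Fin 3) →L[ℝ] ℝ :=
  l3 (pp F α b Ψ X * X 0 / Rr X - qq F α b Ψ X * X 1 / Rr X)
      (pp F α b Ψ X * X 1 / Rr X + qq F α b Ψ X * X 0 / Rr X) (-qq F α b Ψ X)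

variable (X) in
omit hL hX in
/-- the derivative of `R` -/
noncomputable def dR : EuclideanSpace ℝ (Fin 3) →L[ℝ] ℝ := l3 (2 * X 0) (2 * X 1) 0

lemma hasFDerivAt_ps' : HasFDerivAt (ps Ψ) (dps F α b Ψ X) X := hasFDerivAt_ps hL hX

include h

lemma hasFDerivAt_ff : HasFDerivAt (fun X => F (ps Ψ X))
    (Fp (F (ps Ψ X)) (α (ps Ψ X)) (b (ps Ψ X)) • dps F α b Ψ X) X :=
  (h.dF _ (ps_mem hL hX)).comp_hasFDerivAt X (hasFDerivAt_ps' hL hX)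

lemma hasFDerivAt_bb : HasFDerivAt (fun X => b (ps Ψ X))
    ((3 * b (ps Ψ X) ^ 2) • dps F α b Ψ X) X :=
  (h.db _ (ps_mem hL hX)).comp_hasFDerivAt X (hasFDerivAt_ps' hL hX)

lemma hasFDerivAt_ww : HasFDerivAt (ww α b Ψ)
    (wp (Rr X) (F (ps Ψ X)) (α (ps Ψ X)) (b (ps Ψ X)) • dps F α b Ψ X
      - b (ps Ψ X) • dR X) X := by
  have h1 := (hasFDerivAt_w h (x := (Rr X, ps Ψ X)) (ps_mem hL hX)).comp X
    ((hasFDerivAt_Rr X).prodMk (hasFDerivAt_ps' hL hX))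
  refine h1.congr_fderiv ?_
  ext v
  simp [dR, dps]
  ring

lemma hasFDerivAt_qq : HasFDerivAt (qq F α b Ψ)
    ((SR (Rr X) (F (ps Ψ X)) (α (ps Ψ X)) (b (ps Ψ X)) / (2 * qq F α b Ψ X)) • dR X
      + (Sp (Rr X) (F (ps Ψ X)) (α (ps Ψ X)) (b (ps Ψ X)) / (2 * qq F α b Ψ X))
        • dps F α b Ψ X) X := by
  have h1 := (hasFDerivAt_Q h (x := (Rr X, ps Ψ X)) (ps_mem hL hX) (S_pos hL hX)).comp X
    ((hasFDerivAt_Rr X).prodMk (hasFDerivAt_ps' hL hX))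
  refine h1.congr_fderiv ?_
  ext v
  simp [dR, dps, qq]

lemma hasFDerivAt_tt : HasFDerivAt (tt F α b Ψ)
    (Fp (F (ps Ψ X)) (α (ps Ψ X)) (b (ps Ψ X)) • dps F α b Ψ X
      - (wp (Rr X) (F (ps Ψ X)) (α (ps Ψ X)) (b (ps Ψ X)) • dps F α b Ψ X
      - b (ps Ψ X) • dR X)) X :=
  (hasFDerivAt_ff h hL hX).sub (hasFDerivAt_ww h hL hX)

lemma hasFDerivAt_prs : HasFDerivAt (prs b Ψ) ((-2 * b (ps Ψ X)) • dps F α b Ψ X) X := by
  have hb := h.hb _ (ps_mem hL hX)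
  have h1 := ((hasFDerivAt_bb h hL hX).log hb.ne').const_mul (-(2 / 3) : ℝ)
  refine h1.congr_fderiv ?_
  ext v
  simp
  field_simp

end point

end Pool.Agent.Lib.MP_d68153_an
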