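import Mathlib
import Pool.Agent.Lib.MP_d68153_an.Flow

/-!
# Verification of the Euler equations
-/

set_option autoImplicit false

namespace Pool.Agent.Lib.MP_d68153_an

open Set Filter Topology

lemma fderiv_coord {u : EuclideanSpace ℝ (Fin 3) → EuclideanSpace ℝ (Fin 3)}
    {X : EuclideanSpace ℝ (Fin 3)} {l : Fin 3 → EuclideanSpace ℝ (Fin 3) →L[ℝ] ℝ}
    (h : ∀ i, HasFDerivAt (fun X => u X i) (l i) X) (v : EuclideanSpace ℝ (Fin 3)) (i : Fin 3) :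
    (fderiv ℝ u X v) i = l i v := by
  have hd : DifferentiableAt ℝ u X := (differentiableAt_euclidean).mpr
    fun i => (h i).differentiableAt
  have h1 := ((EuclideanSpace.proj i : EuclideanSpace ℝ (Fin 3) →L[ℝ] ℝ).hasFDerivAt
    (x := u X)).comp X hd.hasFDerivAt
  have h2 := h1.unique (h i)
  rw [← h2]
  rfl

variable {F α b : ℝ → ℝ} {ε : ℝ} {Ψ : ℝ × ℝ → ℝ} {W : Set (ℝ × ℝ)}

variable (F α b Ψ) in
/-- derivative of `Q` -/
noncomputable def dq (X : EuclideanSpace ℝ (Fin 3)) : EuclideanSpace ℝ (Fin 3) →L[ℝ] ℝ :=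
  (SR (Rr X) (F (ps Ψ X)) (α (ps Ψ X)) (b (ps Ψ X)) / (2 * qq F α b Ψ X)) • dR X
      + (Sp (Rr X) (F (ps Ψ X)) (α (ps Ψ X)) (b (ps Ψ X)) / (2 * qq F α b Ψ X))
        • dps F α b Ψ X

variable (F α b Ψ) in
/-- derivative of `w` -/
noncomputable def dw (X : EuclideanSpace ℝ (Fin 3)) : EuclideanSpace ℝ (Fin 3) →L[ℝ] ℝ :=
  wp (Rr X) (F (ps Ψ X)) (α (ps Ψ X)) (b (ps Ψ X)) • dps F α b Ψ X
      - b (ps Ψ X) • dR X

variable (F α b Ψ) in
/-- derivative of `T` -/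
noncomputable def dt (X : EuclideanSpace ℝ (Fin 3)) : EuclideanSpace ℝ (Fin 3) →L[ℝ] ℝ :=
  Fp (F (ps Ψ X)) (α (ps Ψ X)) (b (ps Ψ X)) • dps F α b Ψ X - dw F α b Ψ X

variable (F α b Ψ) in
/-- the derivatives of the velocity components -/
noncomputable def dvel (X : EuclideanSpace ℝ (Fin 3)) :
    Fin 3 → EuclideanSpace ℝ (Fin 3) →L[ℝ] ℝ :=
  ![(1 / Rr X) • ((qq F α b Ψ X • l3 1 0 0 + X 0 • dq F α b Ψ X)
      - (tt F α b Ψ X • l3 0 1 0 + X 1 • dt F α b Ψ X))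
      - ((qq F α b Ψ X * X 0 - tt F α b Ψ X * X 1) / Rr X ^ 2) • dR X,
    (1 / Rr X) • ((qq F α b Ψ X • l3 0 1 0 + X 1 • dq F α b Ψ X)
      + (tt F α b Ψ X • l3 1 0 0 + X 0 • dt F α b Ψ X))
      - ((qq F α b Ψ X * X 1 + tt F α b Ψ X * X 0) / Rr X ^ 2) • dR X,
    dw F α b Ψ X]

lemma dvel_zero (X : EuclideanSpace ℝ (Fin 3)) : dvel F α b Ψ X 0
    = (1 / Rr X) • ((qq F α b Ψ X • l3 1 0 0 + X 0 • dq F α b Ψ X)
      - (tt F α b Ψ X • l3 0 1 0 + X 1 • dt F α b Ψ X))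
      - ((qq F α b Ψ X * X 0 - tt F α b Ψ X * X 1) / Rr X ^ 2) • dR X := rfl

lemma dvel_one (X : EuclideanSpace ℝ (Fin 3)) : dvel F α b Ψ X 1
    = (1 / Rr X) • ((qq F α b Ψ X • l3 0 1 0 + X 1 • dq F α b Ψ X)
      + (tt F α b Ψ X • l3 1 0 0 + X 0 • dt F α b Ψ X))
      - ((qq F α b Ψ X * X 1 + tt F α b Ψ X * X 0) / Rr X ^ 2) • dR X := rfl

lemma dvel_two (X : EuclideanSpace ℝ (Fin 3)) : dvel F α b Ψ X 2 = dw F α b Ψ X := rfl

section point

variable (h : Sol ε F α b) (hL : Loc ε F α b W Ψ) {X : EuclideanSpace ℝ (Fin 3)} (hX : X ∈ Dom W)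

include h hL hX

lemma hasFDerivAt_vel (i : Fin 3) :
    HasFDerivAt (fun X => vel F α b Ψ X i) (dvel F α b Ψ X i) X := by
  have hR := (Rr_pos hX.1).ne'
  have hx := hasFDerivAt_x X
  have hy := hasFDerivAt_y X
  have hq := hasFDerivAt_qq h hL hX
  have ht := hasFDerivAt_tt h hL hX
  have hw := hasFDerivAt_ww h hL hX
  have hRr := hasFDerivAt_Rr X
  fin_cases i
  · exact hasFDerivAt_div' ((hq.mul hx).sub (ht.mul hy)) hRr hR
  · exact hasFDerivAt_div' ((hq.mul hy).add (ht.mul hx)) hRr hR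
  · exact hw

/-- `Q² + T² = R (1 - w²)` -/
lemma qt_sq : qq F α b Ψ X ^ 2 + tt F α b Ψ X ^ 2 = Rr X * (1 - ww α b Ψ X ^ 2) := by
  rw [qq_sq hL hX]
  unfold tt Sv ww
  ring

lemma pp_eq : pp F α b Ψ X = Rr X * ww α b Ψ X - tt F α b Ψ X := by
  unfold pp tt Pf Pv ww
  simp only
  ring

/-- derivative of `R` along the velocity -/
lemma dR_vel : dR X (vel F α b Ψ X) = 2 * qq F α b Ψ X := by
  have hR := (Rr_pos hX.1).ne'
  have hRe : Rr X = X 0 ^ 2 + X 1 ^ 2 := rfl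
  simp [dR, vel]
  field_simp
  rw [hRe]
  ring

/-- derivative of `ψ` along the velocity -/
lemma dps_vel : dps F α b Ψ X (vel F α b Ψ X) = 0 := by
  have hR := (Rr_pos hX.1).ne'
  have hRe : Rr X = X 0 ^ 2 + X 1 ^ 2 := rfl
  have hp := pp_eq h hL hX
  simp [dps, vel]
  rw [hp]
  field_simp
  rw [hRe]
  ring

lemma dw_vel : dw F α b Ψ X (vel F α b Ψ X) = -2 * b (ps Ψ X) * qq F α b Ψ X := by
  simp only [dw, ContinuousLinearMap.sub_apply, ContinuousLinearMap.smul_apply,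
    dps_vel h hL hX, dR_vel h hL hX, smul_eq_mul]
  ring

lemma dt_vel : dt F α b Ψ X (vel F α b Ψ X) = 2 * b (ps Ψ X) * qq F α b Ψ X := by
  simp only [dt, ContinuousLinearMap.sub_apply, ContinuousLinearMap.smul_apply,
    dps_vel h hL hX, dw_vel h hL hX, smul_eq_mul]
  ring

lemma dq_vel : dq F α b Ψ X (vel F α b Ψ X)
    = SR (Rr X) (F (ps Ψ X)) (α (ps Ψ X)) (b (ps Ψ X)) := by
  have hq := qq_pos hL hX
  simp only [dq, ContinuousLinearMap.add_apply, ContinuousLinearMap.smul_apply,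
    dps_vel h hL hX, dR_vel h hL hX, smul_eq_mul]
  field_simp
  ring

/-- `S_R` in terms of the flow -/
lemma SR_eq : SR (Rr X) (F (ps Ψ X)) (α (ps Ψ X)) (b (ps Ψ X))
    = 1 - ww α b Ψ X ^ 2 + 2 * b (ps Ψ X) * pp F α b Ψ X := rfl

/-- the momentum equation in coordinates -/
lemma momentum (i : Fin 3) : dvel F α b Ψ X i (vel F α b Ψ X)
    + ((-2 * b (ps Ψ X)) • dps F α b Ψ X) (EuclideanSpace.single i 1) = 0 := by
  have hR := (Rr_pos hX.1).ne'
  have hRe : Rr X = X 0 ^ 2 + X 1 ^ 2 := rfl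
  have hqt := qt_sq h hL hX
  have hdR := dR_vel h hL hX
  have hdw := dw_vel h hL hX
  have hdt := dt_vel h hL hX
  have hdq := dq_vel h hL hX
  have hSR := SR_eq h hL hX
  fin_cases i
  · show dvel F α b Ψ X 0 _ + _ = 0
    simp only [dvel_zero, Fin.zero_eta, ContinuousLinearMap.sub_apply,
      ContinuousLinearMap.add_apply, ContinuousLinearMap.smul_apply, smul_eq_mul, hdR, hdt, hdq,
      hSR]
    simp [vel, dps]
    field_simp
    linear_combination (-X 0) * hqt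
  · show dvel F α b Ψ X 1 _ + _ = 0
    simp only [dvel_one, Fin.mk_one, ContinuousLinearMap.sub_apply,
      ContinuousLinearMap.add_apply, ContinuousLinearMap.smul_apply, smul_eq_mul, hdR, hdt, hdq,
      hSR]
    simp [vel, dps]
    field_simp
    linear_combination (-X 1) * hqt
  · show dvel F α b Ψ X 2 _ + _ = 0
    rw [dvel_two, hdw]
    simp [dps]

/-- the divergence vanishes -/
lemma divergence : ∑ i : Fin 3, dvel F α b Ψ X i (EuclideanSpace.single i 1) = 0 := by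
  have hR := (Rr_pos hX.1).ne'
  have hRe : Rr X = X 0 ^ 2 + X 1 ^ 2 := rfl
  have hq := (qq_pos hL hX).ne'
  have hc := compat (Rr X) (F (ps Ψ X)) (α (ps Ψ X)) (b (ps Ψ X)) (h.hD _ (ps_mem hL hX))
  have hqs := qq_sq hL hX
  rw [← hqs] at hc
  have e2 : Pv (Rr X) (F (ps Ψ X)) (α (ps Ψ X)) (b (ps Ψ X)) = pp F α b Ψ X := rfl
  rw [e2] at hc
  unfold Pp at hc
  simp only [Fin.sum_univ_three, dvel_zero, dvel_one, dvel_two]
  simp [dq, dt, dw, dps, dR]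
  field_simp
  rw [hRe] at *
  linear_combination (-(X 0 ^ 2 + X 1 ^ 2)) * hc

end point

end Pool.Agent.Lib.MP_d68153_an
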