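import Mathlib
import Pool.Agent.Lib.MP_d68153_an.Euler

/-!
# Smoothness of the flow
-/

set_option autoImplicit false

namespace Pool.Agent.Lib.MP_d68153_an

open Set Filter Topology

variable {F α b : ℝ → ℝ} {ε : ℝ} {Ψ : ℝ × ℝ → ℝ} {W : Set (ℝ × ℝ)}

lemma contDiff_x : ContDiff ℝ (⊤ : ℕ∞) (fun X : EuclideanSpace ℝ (Fin 3) => X 0) :=
  (EuclideanSpace.proj (0 : Fin 3) : EuclideanSpace ℝ (Fin 3) →L[ℝ] ℝ).contDiff

lemma contDiff_y : ContDiff ℝ (⊤ : ℕ∞) (fun X : EuclideanSpace ℝ (Fin 3) => X 1) :=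
  (EuclideanSpace.proj (1 : Fin 3) : EuclideanSpace ℝ (Fin 3) →L[ℝ] ℝ).contDiff

lemma contDiff_z : ContDiff ℝ (⊤ : ℕ∞) (fun X : EuclideanSpace ℝ (Fin 3) => X 2) :=
  (EuclideanSpace.proj (2 : Fin 3) : EuclideanSpace ℝ (Fin 3) →L[ℝ] ℝ).contDiff

lemma contDiff_Rr : ContDiff ℝ (⊤ : ℕ∞) Rr := (contDiff_x.pow 2).add (contDiff_y.pow 2)

lemma contDiffOn_ze : ContDiffOn ℝ (⊤ : ℕ∞) ze (Dom W) := by
  have h1 : ContDiffOn ℝ (⊤ : ℕ∞) (fun X : EuclideanSpace ℝ (Fin 3) => X 1 / X 0) (Dom W) :=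
    contDiff_y.contDiffOn.div contDiff_x.contDiffOn fun X hX => hX.1.ne'
  exact (Real.contDiff_arctan.comp_contDiffOn h1).sub contDiff_z.contDiffOn

section

variable (h : Sol ε F α b) (hL : Loc ε F α b W Ψ)

include hL

lemma contDiffOn_ps : ContDiffOn ℝ (⊤ : ℕ∞) (ps Ψ) (Dom W) :=
  hL.smooth.comp (contDiff_Rr.contDiffOn.prodMk contDiffOn_ze) fun X hX => hX.2

include h

lemma contDiffOn_F : ContDiffOn ℝ (⊤ : ℕ∞) (fun X => F (ps Ψ X)) (Dom W) :=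
  h.smF.comp (contDiffOn_ps hL) fun X hX => ps_mem hL hX

lemma contDiffOn_α : ContDiffOn ℝ (⊤ : ℕ∞) (fun X => α (ps Ψ X)) (Dom W) :=
  h.smα.comp (contDiffOn_ps hL) fun X hX => ps_mem hL hX

lemma contDiffOn_b : ContDiffOn ℝ (⊤ : ℕ∞) (fun X => b (ps Ψ X)) (Dom W) :=
  h.smb.comp (contDiffOn_ps hL) fun X hX => ps_mem hL hX

lemma contDiffOn_ww : ContDiffOn ℝ (⊤ : ℕ∞) (ww α b Ψ) (Dom W) :=
  (contDiffOn_α h hL).sub ((contDiffOn_b h hL).mul contDiff_Rr.contDiffOn)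

lemma contDiffOn_qq : ContDiffOn ℝ (⊤ : ℕ∞) (qq F α b Ψ) (Dom W) := by
  have sF := contDiffOn_F h hL
  have sR : ContDiffOn ℝ (⊤ : ℕ∞) Rr (Dom W) := contDiff_Rr.contDiffOn
  have sw := contDiffOn_ww h hL
  have sS : ContDiffOn ℝ (⊤ : ℕ∞) (fun X => Sf F α b (Rr X, ps Ψ X)) (Dom W) :=
    ((sR.sub (sF.pow 2)).add ((contDiffOn_const.mul sF).mul sw)).sub
      ((sR.add contDiffOn_const).mul (sw.pow 2))
  exact sS.sqrt fun X hX => (S_pos hL hX).ne'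

lemma contDiffOn_tt : ContDiffOn ℝ (⊤ : ℕ∞) (tt F α b Ψ) (Dom W) :=
  (contDiffOn_F h hL).sub (contDiffOn_ww h hL)

lemma contDiffOn_vel : ContDiffOn ℝ (⊤ : ℕ∞) (vel F α b Ψ) (Dom W) := by
  have sq := contDiffOn_qq h hL
  have st := contDiffOn_tt h hL
  have sR : ContDiffOn ℝ (⊤ : ℕ∞) Rr (Dom W) := contDiff_Rr.contDiffOn
  have sx : ContDiffOn ℝ (⊤ : ℕ∞) (fun X : EuclideanSpace ℝ (Fin 3) => X 0) (Dom W) :=
    contDiff_x.contDiffOn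
  have sy : ContDiffOn ℝ (⊤ : ℕ∞) (fun X : EuclideanSpace ℝ (Fin 3) => X 1) (Dom W) :=
    contDiff_y.contDiffOn
  have hR : ∀ X ∈ Dom W, Rr X ≠ 0 := fun X hX => (Rr_pos hX.1).ne'
  rw [contDiffOn_euclidean]
  intro i
  fin_cases i
  · exact ((sq.mul sx).sub (st.mul sy)).div sR hR
  · exact ((sq.mul sy).add (st.mul sx)).div sR hR
  · exact contDiffOn_ww h hL

lemma contDiffOn_prs : ContDiffOn ℝ (⊤ : ℕ∞) (prs b Ψ) (Dom W) :=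
  contDiffOn_const.mul ((contDiffOn_b h hL).log fun X hX => (h.hb _ (ps_mem hL hX)).ne')

end

end Pool.Agent.Lib.MP_d68153_an
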