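import Mathlib
import Pool.Agent.Lib.MP_d68153_an.Rot
import Pool.Agent.Lib.MP_d68153_an.Smooth

/-!
# The flow has no axis
-/

set_option autoImplicit false

namespace Pool.Agent.Lib.MP_d68153_an

open Set Filter Topology

variable {F α b : ℝ → ℝ} {ε : ℝ} {Ψ : ℝ × ℝ → ℝ} {W : Set (ℝ × ℝ)}

lemma toDual_symm_l3 (a b c : ℝ) :
    (InnerProductSpace.toDual ℝ (EuclideanSpace ℝ (Fin 3))).symm (l3 a b c) = !₂[a, b, c] := by
  rw [LinearIsometryEquiv.symm_apply_eq]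
  ext v
  simp [PiLp.inner_apply, Fin.sum_univ_three]
  ring

lemma gradient_prs (h : Sol ε F α b) (hL : Loc ε F α b W Ψ) {X : EuclideanSpace ℝ (Fin 3)}
    (hX : X ∈ Dom W) : gradient (prs b Ψ) X = (-2 * b (ps Ψ X)) •
      !₂[pp F α b Ψ X * X 0 / Rr X - qq F α b Ψ X * X 1 / Rr X,
        pp F α b Ψ X * X 1 / Rr X + qq F α b Ψ X * X 0 / Rr X, -qq F α b Ψ X] := by
  unfold gradient
  rw [(hasFDerivAt_prs h hL hX).fderiv, map_smulₛₗ, dps, toDual_symm_l3]
  simp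

lemma norm_gradient_prs (h : Sol ε F α b) (hL : Loc ε F α b W Ψ) {X : EuclideanSpace ℝ (Fin 3)}
    (hX : X ∈ Dom W) : ‖gradient (prs b Ψ) X‖ ^ 2
      = 4 * b (ps Ψ X) ^ 2 * (Rr X + 1 - F (ps Ψ X) ^ 2) := by
  have hR := (Rr_pos hX.1).ne'
  have hRe : Rr X = X 0 ^ 2 + X 1 ^ 2 := rfl
  have hqs := qq_sq hL hX
  have hp : pp F α b Ψ X = (Rr X + 1) * wv (Rr X) (α (ps Ψ X)) (b (ps Ψ X)) - F (ps Ψ X) := rfl
  unfold Sv at hqs
  rw [gradient_prs h hL hX, norm_smul, mul_pow, EuclideanSpace.norm_sq_eq]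
  simp only [Fin.sum_univ_three, Real.norm_eq_abs, sq_abs]
  simp
  have key : (pp F α b Ψ X * X 0 / Rr X - qq F α b Ψ X * X 1 / Rr X) ^ 2
      + (pp F α b Ψ X * X 1 / Rr X + qq F α b Ψ X * X 0 / Rr X) ^ 2 + qq F α b Ψ X ^ 2
      = Rr X + 1 - F (ps Ψ X) ^ 2 := by
    have e : (pp F α b Ψ X * X 0 / Rr X - qq F α b Ψ X * X 1 / Rr X) ^ 2
      + (pp F α b Ψ X * X 1 / Rr X + qq F α b Ψ X * X 0 / Rr X) ^ 2
      = (pp F α b Ψ X ^ 2 + qq F α b Ψ X ^ 2) / Rr X := by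
      field_simp
      rw [hRe]
      ring
    rw [e, hp, hqs]
    field_simp
    ring
  rw [key]
  ring

/-- rotations preserve the length of the gradient of an invariant function -/
lemma norm_gradient_invariant {p : EuclideanSpace ℝ (Fin 3) → ℝ}
    {V : Set (EuclideanSpace ℝ (Fin 3))} (hV : IsOpen V) (hp : ∀ x ∈ V, DifferentiableAt ℝ p x)
    {a : EuclideanSpace ℝ (Fin 3)}
    {A : EuclideanSpace ℝ (Fin 3) ≃ₗᵢ[ℝ] EuclideanSpace ℝ (Fin 3)}
    (hinv : ∀ x ∈ V, a + A (x - a) ∈ V → p (a + A (x - a)) = p x)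
    {x : EuclideanSpace ℝ (Fin 3)} (hx : x ∈ V) (hTx : a + A (x - a) ∈ V) :
    ‖gradient p (a + A (x - a))‖ = ‖gradient p x‖ := by
  have hT : HasFDerivAt (fun y => a + A (y - a))
      (A.toContinuousLinearEquiv : EuclideanSpace ℝ (Fin 3) →L[ℝ] EuclideanSpace ℝ (Fin 3)) x := by
    have h1 := (A.toContinuousLinearEquiv :
      EuclideanSpace ℝ (Fin 3) →L[ℝ] EuclideanSpace ℝ (Fin 3)).hasFDerivAt (x := x - a)
    have h2 := h1.comp x ((hasFDerivAt_id x).sub_const a)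
    exact (h2.const_add a).congr_fderiv (by ext; simp)
  have h1 : HasFDerivAt (fun y => p (a + A (y - a)))
      ((fderiv ℝ p (a + A (x - a))).comp (A.toContinuousLinearEquiv :
        EuclideanSpace ℝ (Fin 3) →L[ℝ] EuclideanSpace ℝ (Fin 3))) x :=
    (hp _ hTx).hasFDerivAt.comp x hT
  have hev : (fun y => p (a + A (y - a))) =ᶠ[𝓝 x] p := by
    filter_upwards [hV.mem_nhds hx, hT.continuousAt.eventually_mem (hV.mem_nhds hTx)] with y h1 h2
    exact hinv y h1 h2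
  have h2 := (h1.congr_of_eventuallyEq hev.symm).fderiv
  unfold gradient
  rw [LinearIsometryEquiv.norm_map, LinearIsometryEquiv.norm_map, h2]
  exact (ContinuousLinearMap.opNorm_comp_linearIsometryEquiv _ A).symm

lemma b_injOn (h : Sol ε F α b) : InjOn b (Ioo (-ε) ε) := by
  apply StrictMonoOn.injOn
  apply strictMonoOn_of_deriv_pos (convex_Ioo _ _)
  · exact fun t ht => (h.db t ht).continuousAt.continuousWithinAt
  · intro t ht
    rw [interior_Ioo] at ht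
    rw [(h.db t ht).deriv]
    have := h.hb t ht
    positivity

/-- invariance of `ψ` and `R` under symmetries -/
lemma invariant_ps_R (h : Sol ε F α b) (hL : Loc ε F α b W Ψ)
    {V : Set (EuclideanSpace ℝ (Fin 3))} (hV : IsOpen V) (hVD : V ⊆ Dom W)
    {a : EuclideanSpace ℝ (Fin 3)}
    {A : EuclideanSpace ℝ (Fin 3) ≃ₗᵢ[ℝ] EuclideanSpace ℝ (Fin 3)}
    (hinv : ∀ x ∈ V, a + A (x - a) ∈ V → prs b Ψ (a + A (x - a)) = prs b Ψ x)
    {x : EuclideanSpace ℝ (Fin 3)} (hx : x ∈ V) (hTx : a + A (x - a) ∈ V) :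
    ps Ψ (a + A (x - a)) = ps Ψ x ∧ Rr (a + A (x - a)) = Rr x := by
  have hb1 := h.hb _ (ps_mem hL (hVD hx))
  have hb2 := h.hb _ (ps_mem hL (hVD hTx))
  have h1 : b (ps Ψ (a + A (x - a))) = b (ps Ψ x) := by
    have h2 := hinv x hx hTx
    unfold prs at h2
    have h3 : Real.log (b (ps Ψ (a + A (x - a)))) = Real.log (b (ps Ψ x)) := by linarith
    exact Real.log_injOn_pos hb2 hb1 h3
  have h2 : ps Ψ (a + A (x - a)) = ps Ψ x :=
    b_injOn h (ps_mem hL (hVD hTx)) (ps_mem hL (hVD hx)) h1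
  refine ⟨h2, ?_⟩
  have h3 := norm_gradient_invariant hV
    (fun y hy => (hasFDerivAt_prs h hL (hVD hy)).differentiableAt) hinv hx hTx
  have h4 := norm_gradient_prs h hL (hVD hx)
  have h5 := norm_gradient_prs h hL (hVD hTx)
  rw [h3, h4, h2] at h5
  have h6 : 4 * b (ps Ψ x) ^ 2 ≠ 0 := by positivity
  have h7 := mul_left_cancel₀ h6 h5
  linarith

/-- the flow is not invariant under the rotations about any line -/
theorem not_axis (h : Sol ε F α b) (hL : Loc ε F α b W Ψ)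
    {V : Set (EuclideanSpace ℝ (Fin 3))} (hV : IsOpen V) (hVne : V.Nonempty) (hVD : V ⊆ Dom W)
    (a e : EuclideanSpace ℝ (Fin 3)) (he : e ≠ 0)
    (hinv : ∀ A : EuclideanSpace ℝ (Fin 3) ≃ₗᵢ[ℝ] EuclideanSpace ℝ (Fin 3), A e = e →
      LinearMap.det (A.toLinearEquiv :
        EuclideanSpace ℝ (Fin 3) →ₗ[ℝ] EuclideanSpace ℝ (Fin 3)) = 1 →
      ∀ x ∈ V, a + A (x - a) ∈ V → prs b Ψ (a + A (x - a)) = prs b Ψ x) : False := by
  -- a unit axis
  set n := (‖e‖⁻¹) • e with hn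
  have he0 : 0 < ‖e‖ := norm_pos_iff.mpr he
  have hn1 : ‖n‖ ^ 2 = 1 := by
    rw [hn, norm_smul, norm_inv, norm_norm]
    field_simp
  have hn2 : n 0 ^ 2 + n 1 ^ 2 + n 2 ^ 2 = 1 := by
    rw [EuclideanSpace.norm_sq_eq] at hn1
    simpa [Fin.sum_univ_three] using hn1
  have hen : e = ‖e‖ • n := by
    rw [hn, smul_smul, mul_inv_cancel₀ he0.ne', one_smul]
  have hfix : ∀ t, rot n hn2 t e = e := by
    intro t
    rw [hen, map_smul, rot_axis]
  -- the infinitesimal statement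
  have hinf : ∀ x ∈ V, dps F α b Ψ x (cr n (x - a)) = 0 ∧ dR x (cr n (x - a)) = 0 := by
    intro x hx
    have hc : HasDerivAt (fun t => a + rot n hn2 t (x - a)) (cr n (x - a)) 0 :=
      (hasDerivAt_rot n hn2 (x - a)).const_add a
    have hc0 : a + rot n hn2 0 (x - a) = x := by
      rw [rot_zero]; abel
    have hev : ∀ᶠ t in 𝓝 (0 : ℝ), a + rot n hn2 t (x - a) ∈ V := by
      apply hc.continuousAt.eventually_mem
      rw [hc0]
      exact hV.mem_nhds hx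
    have hps : HasFDerivAt (ps Ψ) (dps F α b Ψ x) (a + rot n hn2 0 (x - a)) := by
      rw [hc0]; exact hasFDerivAt_ps' hL (hVD hx)
    have hRr : HasFDerivAt Rr (dR x) (a + rot n hn2 0 (x - a)) := by
      rw [hc0]; exact hasFDerivAt_Rr x
    have h1 := hps.comp_hasDerivAt 0 hc
    have h2 := hRr.comp_hasDerivAt 0 hc
    have h3 : (ps Ψ ∘ fun t => a + rot n hn2 t (x - a)) =ᶠ[𝓝 0] fun _ => ps Ψ x := by
      filter_upwards [hev] with t ht
      exact (invariant_ps_R h hL hV hVD (hinv _ (hfix t) (rot_det n hn2 t)) hx ht).1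
    have h4 : (Rr ∘ fun t => a + rot n hn2 t (x - a)) =ᶠ[𝓝 0] fun _ => Rr x := by
      filter_upwards [hev] with t ht
      exact (invariant_ps_R h hL hV hVD (hinv _ (hfix t) (rot_det n hn2 t)) hx ht).2
    exact ⟨(h1.congr_of_eventuallyEq h3.symm).unique (hasDerivAt_const _ _),
      (h2.congr_of_eventuallyEq h4.symm).unique (hasDerivAt_const _ _)⟩
  -- a small ball
  obtain ⟨x, hx⟩ := hVne
  obtain ⟨r, hr, hball⟩ := Metric.isOpen_iff.mp hV x hx
  have hpt : ∀ s t u : ℝ, |s| ≤ r / 8 → |t| ≤ r / 8 → |u| ≤ r / 8 →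
      !₂[x 0 + s, x 1 + t, x 2 + u] ∈ V := by
    intro s t u hs ht hu
    apply hball
    rw [Metric.mem_ball, EuclideanSpace.dist_eq]
    simp only [Fin.sum_univ_three]
    simp [Real.dist_eq]
    rw [Real.sqrt_lt' hr]
    have e1 : s ^ 2 ≤ (r / 8) ^ 2 := by rw [← sq_abs s]; gcongr
    have e2 : t ^ 2 ≤ (r / 8) ^ 2 := by rw [← sq_abs t]; gcongr
    have e3 : u ^ 2 ≤ (r / 8) ^ 2 := by rw [← sq_abs u]; gcongr
    nlinarith
  have hq : ∀ s t u : ℝ, |s| ≤ r / 8 → |t| ≤ r / 8 → |u| ≤ r / 8 →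
      (x 0 + s) * (n 1 * (x 2 + u - a 2) + n 2 * a 1)
        - (x 1 + t) * (n 0 * (x 2 + u - a 2) + n 2 * a 0) = 0 := by
    intro s t u hs ht hu
    have h1 := (hinf _ (hpt s t u hs ht hu)).2
    simp [dR, cr] at h1
    linarith
  set δ := r / 8 with hδ
  have hδ0 : 0 < δ := by positivity
  have hz : |(0 : ℝ)| ≤ δ := by simpa using hδ0.le
  have hd : |δ| ≤ δ := (abs_of_pos hδ0).le
  have q0 := hq 0 0 0 hz hz hz
  have q1 := hq δ 0 0 hd hz hz
  have q2 := hq 0 δ 0 hz hd hz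
  have q3 := hq 0 0 δ hz hz hd
  have q4 := hq δ 0 δ hd hz hd
  have q5 := hq 0 δ δ hz hd hd
  have A0 : n 1 * (x 2 + 0 - a 2) + n 2 * a 1 = 0 := by
    have : δ * (n 1 * (x 2 + 0 - a 2) + n 2 * a 1) = 0 := by linarith
    exact (mul_eq_zero.mp this).resolve_left hδ0.ne'
  have B0 : n 0 * (x 2 + 0 - a 2) + n 2 * a 0 = 0 := by
    have : δ * (n 0 * (x 2 + 0 - a 2) + n 2 * a 0) = 0 := by linarith
    exact (mul_eq_zero.mp this).resolve_left hδ0.ne'
  have A1 : n 1 * (x 2 + δ - a 2) + n 2 * a 1 = 0 := by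
    have : δ * (n 1 * (x 2 + δ - a 2) + n 2 * a 1) = 0 := by linarith
    exact (mul_eq_zero.mp this).resolve_left hδ0.ne'
  have B1 : n 0 * (x 2 + δ - a 2) + n 2 * a 0 = 0 := by
    have : δ * (n 0 * (x 2 + δ - a 2) + n 2 * a 0) = 0 := by linarith
    exact (mul_eq_zero.mp this).resolve_left hδ0.ne'
  have hn1' : n 1 = 0 := by
    have : δ * n 1 = 0 := by linarith
    exact (mul_eq_zero.mp this).resolve_left hδ0.ne'
  have hn0' : n 0 = 0 := by
    have : δ * n 0 = 0 := by linarith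
    exact (mul_eq_zero.mp this).resolve_left hδ0.ne'
  have hn2' : n 2 ≠ 0 := by
    intro h0
    rw [hn0', hn1', h0] at hn2
    norm_num at hn2
  have ha1 : a 1 = 0 := by
    rw [hn1'] at A0
    have : n 2 * a 1 = 0 := by linarith
    exact (mul_eq_zero.mp this).resolve_left hn2'
  have ha0 : a 0 = 0 := by
    rw [hn0'] at B0
    have : n 2 * a 0 = 0 := by linarith
    exact (mul_eq_zero.mp this).resolve_left hn2'
  have hfin := (hinf x hx).1
  have hRp := (Rr_pos (hVD hx).1).ne'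
  have hRe : Rr x = x 0 ^ 2 + x 1 ^ 2 := rfl
  have hqp := qq_pos hL (hVD hx)
  have hval : dps F α b Ψ x (cr n (x - a)) = n 2 * qq F α b Ψ x := by
    simp [dps, cr, hn0', hn1', ha0, ha1]
    field_simp
    rw [hRe]
    ring
  rw [hval] at hfin
  rcases mul_eq_zero.mp hfin with h1 | h1
  · exact hn2' h1
  · exact hqp.ne' h1

end Pool.Agent.Lib.MP_d68153_an
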